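import Pool.Agent.H89.FLT.S

set_option autoImplicit false

namespace Pool.FLT

theorem col (hF : FRKStmt) : COLStmt := by
  intro n hn y r hli hy x
  have hr0 : 0 ≤ r := (norm_nonneg _).trans (hy ⟨0, by omega⟩)
  have hcard : Fintype.card (Fin (n - 1)) = Module.finrank ℝ (aa n) := by
    rw [Fintype.card_fin]
    exact (hF n (by omega)).symm
  have hspan : Submodule.span ℝ (Set.range y) = ⊤ :=
    hli.span_eq_top_of_card_eq_finrank' hcard
  have hx : x ∈ Submodule.span ℝ (Set.range y) := by rw [hspan]; exact Submodule.mem_top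
  obtain ⟨c, hc⟩ := (Submodule.mem_span_range_iff_exists_fun ℝ).1 hx
  refine ⟨fun j => ⌊c j⌋, ∑ j, Int.fract (c j) • y j, ?_, ?_⟩
  · calc ‖∑ j, Int.fract (c j) • y j‖ ≤ ∑ j, ‖Int.fract (c j) • y j‖ := norm_sum_le _ _
      _ ≤ ∑ _j : Fin (n - 1), r := by
          refine Finset.sum_le_sum fun j _ => ?_
          rw [norm_smul, Real.norm_of_nonneg (Int.fract_nonneg _)]
          calc Int.fract (c j) * ‖y j‖ ≤ 1 * r :=
                mul_le_mul (Int.fract_lt_one _).le (hy j) (norm_nonneg _) zero_le_one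
            _ = r := one_mul r
      _ = ((n - 1 : ℕ) : ℝ) * r := by rw [Finset.sum_const, Finset.card_univ, Fintype.card_fin, nsmul_eq_mul]
      _ ≤ n * r := by
          refine mul_le_mul_of_nonneg_right ?_ hr0
          exact_mod_cast Nat.sub_le n 1
  · rw [← Finset.sum_add_distrib, ← hc]
    refine Finset.sum_congr rfl fun j _ => ?_
    rw [← add_smul, Int.floor_add_fract]

end Pool.FLT
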